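import Pool.Agent.W658.Cone

/-!
The unitised cone over the Cuntz algebra is stably finite.
-/

set_option autoImplicit false

open scoped InnerProductSpace CStarAlgebra ComplexOrder
open Filter Topology

namespace Run7.h875.CU

open Pool.Agent.W658 Pool.Agent.W658.Cone

/-- the sum of the norms of the entries at `t` -/
noncomputable def nrm {n : ℕ} (P : Matrix (Fin n) (Fin n) CA) (t : unitInterval) : ℝ :=
  ∑ i, ∑ j, ‖ev t (P i j)‖

lemma nrm_nonneg {n : ℕ} (P : Matrix (Fin n) (Fin n) CA) (t : unitInterval) : 0 ≤ nrm P t :=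
  Finset.sum_nonneg fun _ _ => Finset.sum_nonneg fun _ _ => norm_nonneg _

lemma le_nrm {n : ℕ} (P : Matrix (Fin n) (Fin n) CA) (t : unitInterval) (i j : Fin n) :
    ‖ev t (P i j)‖ ≤ nrm P t := by
  refine le_trans ?_ (Finset.single_le_sum (f := fun i => ∑ j, ‖ev t (P i j)‖)
    (fun _ _ => Finset.sum_nonneg fun _ _ => norm_nonneg _) (Finset.mem_univ i))
  exact Finset.single_le_sum (f := fun j => ‖ev t (P i j)‖) (fun _ _ => norm_nonneg _)
    (Finset.mem_univ j)

lemma continuous_nrm {n : ℕ} (P : Matrix (Fin n) (Fin n) CA) : Continuous (nrm P) := by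
  unfold nrm
  refine continuous_finsetSum _ fun i _ => continuous_finsetSum _ fun j _ => ?_
  exact ((P i j : CB).continuous).norm

lemma nrm_le_sq {n : ℕ} (P : Matrix (Fin n) (Fin n) CA) (hP : P * P = P) (t : unitInterval) :
    nrm P t ≤ nrm P t * nrm P t := by
  have h1 : ∀ i j, ‖ev t (P i j)‖ ≤ ∑ k, ‖ev t (P i k)‖ * ‖ev t (P k j)‖ := by
    intro i j
    have h2 : P i j = ∑ k, P i k * P k j := by
      conv_lhs => rw [← hP]
      rfl
    calc ‖ev t (P i j)‖ = ‖∑ k, ev t (P i k) * ev t (P k j)‖ := by
          conv_lhs => rw [h2, map_sum]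
          congr 1
      _ ≤ ∑ k, ‖ev t (P i k)‖ * ‖ev t (P k j)‖ :=
          (norm_sum_le _ _).trans (Finset.sum_le_sum fun k _ => norm_mul_le _ _)
  calc nrm P t ≤ ∑ i, ∑ j, ∑ k, ‖ev t (P i k)‖ * ‖ev t (P k j)‖ :=
        Finset.sum_le_sum fun i _ => Finset.sum_le_sum fun j _ => h1 i j
    _ = ∑ i, ∑ k, ‖ev t (P i k)‖ * ∑ j, ‖ev t (P k j)‖ := by
        refine Finset.sum_congr rfl fun i _ => ?_
        rw [Finset.sum_comm]
        refine Finset.sum_congr rfl fun k _ => ?_
        rw [Finset.mul_sum]
    _ ≤ ∑ i, ∑ k, ‖ev t (P i k)‖ * nrm P t := by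
        refine Finset.sum_le_sum fun i _ => Finset.sum_le_sum fun k _ => ?_
        refine mul_le_mul_of_nonneg_left ?_ (norm_nonneg _)
        exact Finset.single_le_sum (f := fun i => ∑ j, ‖ev t (P i j)‖)
          (fun _ _ => Finset.sum_nonneg fun _ _ => norm_nonneg _) (Finset.mem_univ k)
    _ = nrm P t * nrm P t := by
        simp only [← Finset.sum_mul]
        rfl

lemma nrm_zero_or {n : ℕ} (P : Matrix (Fin n) (Fin n) CA) (hP : P * P = P) (t : unitInterval) :
    nrm P t = 0 ∨ 1 ≤ nrm P t := by
  by_cases h : nrm P t = 0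
  · exact Or.inl h
  · right
    have h1 : 0 < nrm P t := lt_of_le_of_ne (nrm_nonneg P t) (Ne.symm h)
    have h2 := nrm_le_sq P hP t
    by_contra h3
    push Not at h3
    nlinarith

/-- an idempotent matrix which vanishes at `0` vanishes -/
lemma eq_zero_of_idem {n : ℕ} (P : Matrix (Fin n) (Fin n) CA) (hP : P * P = P)
    (h0 : nrm P 0 = 0) : P = 0 := by
  have hcl : IsClopen {t | nrm P t = 0} := by
    constructor
    · exact isClosed_eq (continuous_nrm P) continuous_const
    · have : {t | nrm P t = 0} = {t | nrm P t < 1} := by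
        ext t
        simp only [Set.mem_ofPred_eq]
        constructor
        · intro h
          rw [h]
          exact one_pos
        · intro h
          rcases nrm_zero_or P hP t with h1 | h1
          · exact h1
          · exact absurd h (not_lt.2 h1)
      rw [this]
      exact isOpen_lt (continuous_nrm P) continuous_const
  have huniv : {t | nrm P t = 0} = Set.univ := hcl.eq_univ ⟨0, h0⟩
  ext1 i j
  apply CA_ext
  intro t
  have h1 : nrm P t = 0 := by
    have : t ∈ {t | nrm P t = 0} := by rw [huniv]; trivial
    exact this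
  have h2 := le_nrm P t i j
  rw [h1] at h2
  have h3 : ev t (P i j) = 0 := norm_le_zero_iff.1 h2
  rw [h3]
  exact (map_zero _).symm

theorem stablyFinite : TypeI.IsStablyFinite CA := by
  intro n v hv
  set P : Matrix (Fin n) (Fin n) CA := 1 - v * star v with hPdef
  have hP : P * P = P := by
    have h1 : v * star v * (v * star v) = v * star v := by
      rw [← mul_assoc, mul_assoc v, hv, mul_one]
    rw [hPdef]
    have h2 : (1 - v * star v) * (1 - v * star v) =
        1 - v * star v - v * star v + v * star v * (v * star v) := by noncomm_ring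
    rw [h2, h1]
    abel
  have h0 : nrm P 0 = 0 := by
    have hc : ∀ i j, ∃ c : ℂ, ev 0 (v i j) = c • (1 : BH) := fun i j => (v i j).2.2
    choose c hc using hc
    have hone : (1 : BH) ≠ 0 := by
      intro h
      have h1 : (1 : BH) xi = (0 : BH) xi := by rw [h]
      have h2 : xi = 0 := h1
      have h3 := norm_xi
      rw [h2, norm_zero] at h3
      exact zero_ne_one h3
    have hvv : ∀ i j, ∑ k, star (c k i) * c k j = if i = j then 1 else 0 := by
      intro i j
      have h1 : (star v * v) i j = (1 : Matrix (Fin n) (Fin n) CA) i j := by rw [hv]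
      have h2 : (star v * v) i j = ∑ k, star (v k i) * v k j := by
        rfl
      rw [h2] at h1
      have h3 := congrArg (ev 0) h1
      rw [map_sum] at h3
      have h4 : ∀ k, ev 0 (star (v k i) * v k j) = (star (c k i) * c k j) • (1 : BH) := by
        intro k
        rw [map_mul, map_star, hc, hc, star_smul, star_one, smul_mul_smul_comm, mul_one]
      simp only [h4] at h3
      rw [← Finset.sum_smul] at h3
      have h5 : ev 0 ((1 : Matrix (Fin n) (Fin n) CA) i j) = (if i = j then (1 : ℂ) else 0) • (1 : BH) := by
        rw [Matrix.one_apply]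
        split_ifs with h
        · rw [one_smul]
          rfl
        · rw [zero_smul]
          rfl
      rw [h5] at h3
      have h6 : ((∑ k, star (c k i) * c k j) - (if i = j then (1 : ℂ) else 0)) • (1 : BH) = 0 := by
        rw [sub_smul, h3, sub_self]
      rcases smul_eq_zero.1 h6 with h | h
      · exact sub_eq_zero.1 h
      · exact absurd h hone
    have hmat : star (Matrix.of c) * (Matrix.of c) = 1 := by
      ext i j
      rw [Matrix.mul_apply]
      simp only [Matrix.star_apply, Matrix.of_apply]
      rw [hvv i j, Matrix.one_apply]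
    have hmat2 : Matrix.of c * star (Matrix.of c) = 1 := mul_eq_one_comm.1 hmat
    have hPij : ∀ i j, ev 0 (P i j) = 0 := by
      intro i j
      have h1 : P i j = (1 : Matrix (Fin n) (Fin n) CA) i j - ∑ k, v i k * star (v j k) := by
        rfl
      rw [h1, map_sub, map_sum]
      have h4 : ∀ k, ev 0 (v i k * star (v j k)) = (c i k * star (c j k)) • (1 : BH) := by
        intro k
        rw [map_mul, map_star, hc, hc, star_smul, star_one, smul_mul_smul_comm, mul_one]
      simp only [h4]
      rw [← Finset.sum_smul]
      have h5 : ev 0 ((1 : Matrix (Fin n) (Fin n) CA) i j) = (if i = j then (1 : ℂ) else 0) • (1 : BH) := by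
        rw [Matrix.one_apply]
        split_ifs with h
        · rw [one_smul]
          rfl
        · rw [zero_smul]
          rfl
      have h6 : ∑ k, c i k * star (c j k) = if i = j then 1 else 0 := by
        have := congrFun (congrFun hmat2 i) j
        rw [Matrix.mul_apply] at this
        simp only [Matrix.star_apply, Matrix.of_apply] at this
        rw [this, Matrix.one_apply]
      rw [h5, h6, sub_self]
    unfold nrm
    refine Finset.sum_eq_zero fun i _ => Finset.sum_eq_zero fun j _ => ?_
    rw [hPij, norm_zero]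
  have h1 := eq_zero_of_idem P hP h0
  rw [hPdef, sub_eq_zero] at h1
  exact h1.symm

end Run7.h875.CU
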