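import Pool.Agent.Run7.h875.CU.TI
import Pool.Agent.Run7.h875.CU.Fin

/-!
The unitised cone over the Cuntz algebra is not locally approximable by type I C*-algebras.
-/

set_option autoImplicit false

open scoped InnerProductSpace ComplexOrder
open Filter Topology
open Pool.Agent.W658 Pool.Agent.W658.Cone

namespace Run7.h875.CU

/-- the generator `t ↦ t s_b` of the cone -/
noncomputable def gen (b : Bool) : CA :=
  ⟨el ⟨fun t => (t : ℝ), continuous_subtype_val⟩ (s b),
    el_mem (by simpa using S_mem_O2 [b]) rfl⟩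

lemma ev_gen (b : Bool) : ev 1 (gen b) = s b := by
  show (((1 : unitInterval) : ℝ) : ℂ) • s b = s b
  simp

lemma norm_ev_le (t : unitInterval) (f : CA) : ‖ev t f‖ ≤ ‖f‖ := by
  show ‖(f : CB) t‖ ≤ ‖(f : CB)‖
  exact ContinuousMap.norm_coe_le_norm _ _

lemma norm_one_BH : ‖(1 : BH)‖ ≤ 1 := ContinuousLinearMap.norm_id_le

lemma norm_s_le (b : Bool) : ‖s b‖ ≤ 1 := by
  have h1 : ‖s b‖ * ‖s b‖ ≤ 1 := by
    rw [← CStarRing.norm_star_mul_self, star_s_mul_s_self]
    exact norm_one_BH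
  nlinarith [norm_nonneg (s b)]

lemma estimate (b c : Bool) (x y : BH) (hx : ‖s b - x‖ < 1 / 10) (hy : ‖s c - y‖ < 1 / 10) :
    ‖star x * y - star (s b) * s c‖ ≤ 1 / 4 := by
  have e : star x * y - star (s b) * s c =
      -(star (s b - x) * s c) - star (s b) * (s c - y) + star (s b - x) * (s c - y) := by
    rw [star_sub]
    noncomm_ring
  have h1 : ‖star (s b - x) * s c‖ ≤ 1 / 10 := by
    refine (norm_mul_le _ _).trans ?_
    rw [norm_star]
    have := norm_s_le c
    nlinarith [norm_nonneg (s b - x), norm_nonneg (s c)]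
  have h2 : ‖star (s b) * (s c - y)‖ ≤ 1 / 10 := by
    refine (norm_mul_le _ _).trans ?_
    rw [norm_star]
    have := norm_s_le b
    nlinarith [norm_nonneg (s c - y), norm_nonneg (s b)]
  have h3 : ‖star (s b - x) * (s c - y)‖ ≤ 1 / 100 := by
    refine (norm_mul_le _ _).trans ?_
    rw [norm_star]
    nlinarith [norm_nonneg (s b - x), norm_nonneg (s c - y)]
  rw [e]
  calc ‖-(star (s b - x) * s c) - star (s b) * (s c - y) + star (s b - x) * (s c - y)‖
      ≤ ‖-(star (s b - x) * s c) - star (s b) * (s c - y)‖ + ‖star (s b - x) * (s c - y)‖ :=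
        norm_add_le _ _
    _ ≤ ‖-(star (s b - x) * s c)‖ + ‖star (s b) * (s c - y)‖ + ‖star (s b - x) * (s c - y)‖ := by
        gcongr
        exact norm_sub_le _ _
    _ ≤ 1 / 4 := by
        rw [norm_neg]
        linarith

/-- the image of a subalgebra under the evaluation at `1` -/
noncomputable def img (B : NonUnitalStarSubalgebra ℂ CA) : NonUnitalStarSubalgebra ℂ BH :=
  NonUnitalStarSubalgebra.map (ev 1) B

lemma mem_img {B : NonUnitalStarSubalgebra ℂ CA} {x : BH} :
    x ∈ img B ↔ ∃ f ∈ B, ev 1 f = x := NonUnitalStarSubalgebra.mem_map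

lemma one_mem_closure (D : NonUnitalStarSubalgebra ℂ BH) (a : BH) (ha : a ∈ D)
    (h : ‖1 - a‖ < 1) : (1 : BH) ∈ closure (D : Set BH) := by
  have h1 : ∀ n : ℕ, 1 - (1 - a) ^ n ∈ (D : Set BH) := by
    intro n
    induction n with
    | zero => simp
    | succ n ih =>
      have e : 1 - (1 - a) ^ (n + 1) = (1 - (1 - a) ^ n) + a - (1 - (1 - a) ^ n) * a := by
        rw [pow_succ]
        noncomm_ring
      rw [e]
      exact sub_mem (add_mem ih ha) (mul_mem ih ha)
  have h2 : Tendsto (fun n : ℕ => 1 - (1 - a) ^ n) atTop (𝓝 (1 - 0)) :=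
    tendsto_const_nhds.sub (tendsto_pow_atTop_nhds_zero_of_norm_lt_one h)
  rw [sub_zero] at h2
  exact mem_closure_of_tendsto h2 (Eventually.of_forall h1)

theorem not_locallyTypeI : ¬ TypeI.LocallyTypeI CA := by
  intro h
  classical
  obtain ⟨B, hBc, hB, hap⟩ := h {gen false, gen true} (1 / 10) (by norm_num)
  obtain ⟨y₀, hy₀, hd₀⟩ := hap (gen false) (by simp)
  obtain ⟨y₁, hy₁, hd₁⟩ := hap (gen true) (by simp)
  have hx₀ : ‖s false - ev 1 y₀‖ < 1 / 10 := by
    rw [← ev_gen false, ← map_sub]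
    exact (norm_ev_le _ _).trans_lt hd₀
  have hx₁ : ‖s true - ev 1 y₁‖ < 1 / 10 := by
    rw [← ev_gen true, ← map_sub]
    exact (norm_ev_le _ _).trans_lt hd₁
  have e0 := estimate false false _ _ hx₀ hx₀
  have e1 := estimate true true _ _ hx₁ hx₁
  have e01 := estimate true false _ _ hx₁ hx₀
  rw [star_s_mul_s_self] at e0 e1
  rw [star_s_mul_s_ne (by decide), sub_zero] at e01
  have hm₀ : ev 1 y₀ ∈ img B := mem_img.2 ⟨y₀, hy₀, rfl⟩
  have hm₁ : ev 1 y₁ ∈ img B := mem_img.2 ⟨y₁, hy₁, rfl⟩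
  have hone : (1 : BH) ∈ (img B).topologicalClosure := by
    have := one_mem_closure (img B) (star (ev 1 y₀) * ev 1 y₀) (mul_mem (star_mem hm₀) hm₀) (by
      rw [norm_sub_rev]
      linarith)
    exact this
  let D : StarSubalgebra ℂ BH := (img B).topologicalClosure.toStarSubalgebra hone
  have hDc : IsClosed (D : Set BH) := (img B).isClosed_topologicalClosure
  let _ : CStarAlgebra D := StarSubalgebra.cstarAlgebra D (h_closed := hDc)
  have hsub : ∀ x ∈ img B, x ∈ D := fun x hx => (img B).le_topologicalClosure hx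
  have hnt : Nontrivial D := by
    refine ⟨⟨0, 1, fun h => ?_⟩⟩
    have h2 : (0 : BH) = 1 := congrArg Subtype.val h
    have h3 : (0 : BH) xi = (1 : BH) xi := by rw [h2]
    have h4 : (0 : H) = xi := h3
    have h5 := norm_xi
    rw [← h4, norm_zero] at h5
    exact zero_ne_one h5
  let ι : B →⋆ₙₐ[ℂ] D :=
    { toFun := fun b => ⟨ev 1 b, hsub _ (mem_img.2 ⟨b, b.2, rfl⟩)⟩
      map_smul' := fun c b => rfl
      map_zero' := rfl
      map_add' := fun b c => rfl
      map_mul' := fun b c => rfl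
      map_star' := fun b => rfl }
  have hι : DenseRange ι := by
    intro d
    rw [Metric.mem_closure_iff]
    intro ε hε
    have hd : (d : BH) ∈ closure (img B : Set BH) := d.2
    rw [Metric.mem_closure_iff] at hd
    obtain ⟨x, hx, hdx⟩ := hd ε hε
    obtain ⟨f, hf, rfl⟩ := mem_img.1 hx
    exact ⟨ι ⟨f, hf⟩, ⟨⟨f, hf⟩, rfl⟩, hdx⟩
  exact no_typeI hB ι hι ⟨ev 1 y₀, hsub _ hm₀⟩ ⟨ev 1 y₁, hsub _ hm₁⟩ e0 e1 e01

end Run7.h875.CU
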