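import Mathlib
import Pool.Agent.H479R2.Kad.PURE
import Pool.Agent.H579R2.Kad5.GNS
import Pool.Agent.W658.States
import Pool.Agent.W658.TIDefs

/-!
Maximal closed ideals of a unital C*-algebra and states which vanish on them.
-/

set_option autoImplicit false

open scoped InnerProductSpace ComplexOrder
open Filter Topology

namespace Run7.h875.CU

variable {C : Type} [CStarAlgebra C]

/-- proper closed two-sided ideals -/
structure Idl (J : Submodule ℂ C) : Prop where
  closed : IsClosed (J : Set C)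
  left : ∀ a x, x ∈ J → a * x ∈ J
  right : ∀ a x, x ∈ J → x * a ∈ J
  one : (1 : C) ∉ J

lemma Idl.norm_ge {J : Submodule ℂ C} (h : Idl J) {x : C} (hx : x ∈ J) : 1 ≤ ‖1 - x‖ := by
  by_contra hlt
  push Not at hlt
  have hu : IsUnit x := by
    have := (Units.oneSub (1 - x) hlt).isUnit
    rwa [Units.val_oneSub, sub_sub_cancel] at this
  obtain ⟨u, rfl⟩ := hu
  apply h.one
  have := h.left (↑u⁻¹ : C) _ hx
  rwa [Units.inv_mul] at this

/-- there is a maximal one -/
lemma exists_maximal [Nontrivial C] :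
    ∃ J : Submodule ℂ C, Idl J ∧ ∀ J', Idl J' → J ≤ J' → J' ≤ J := by
  have hbot : Idl (⊥ : Submodule ℂ C) := by
    refine ⟨?_, ?_, ?_, ?_⟩
    · have h0 : ((⊥ : Submodule ℂ C) : Set C) = {0} := rfl
      rw [h0]
      exact isClosed_singleton
    · intro a x hx
      rw [Submodule.mem_bot] at hx ⊢
      rw [hx, mul_zero]
    · intro a x hx
      rw [Submodule.mem_bot] at hx ⊢
      rw [hx, zero_mul]
    · rw [Submodule.mem_bot]
      exact one_ne_zero
  obtain ⟨m, -, hm⟩ := zorn_le_nonempty₀ {J : Submodule ℂ C | Idl J} (by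
    intro c hc hchain y hy
    have hdir : DirectedOn (· ≤ ·) c := hchain.directedOn
    have hmem : ∀ x, x ∈ sSup c ↔ ∃ J ∈ c, x ∈ J := fun x =>
      Submodule.mem_sSup_of_directed ⟨y, hy⟩ hdir
    have hcl : ((sSup c).topologicalClosure : Set C) = closure ((sSup c : Submodule ℂ C) : Set C) :=
      Submodule.topologicalClosure_coe _
    have hmem' : ∀ x, x ∈ (sSup c).topologicalClosure ↔ x ∈ closure ((sSup c : Submodule ℂ C) : Set C) := by
      intro x
      rw [← SetLike.mem_coe, hcl]
    refine ⟨(sSup c).topologicalClosure, ⟨?_, ?_, ?_, ?_⟩, ?_⟩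
    · rw [hcl]
      exact isClosed_closure
    · intro a x hx
      rw [hmem'] at hx ⊢
      refine map_mem_closure (f := fun x => a * x) (by fun_prop) hx ?_
      intro z hz
      obtain ⟨J, hJ, hzJ⟩ := (hmem z).1 hz
      exact (hmem _).2 ⟨J, hJ, (hc hJ).left a z hzJ⟩
    · intro a x hx
      rw [hmem'] at hx ⊢
      refine map_mem_closure (f := fun x => x * a) (by fun_prop) hx ?_
      intro z hz
      obtain ⟨J, hJ, hzJ⟩ := (hmem z).1 hz
      exact (hmem _).2 ⟨J, hJ, (hc hJ).right a z hzJ⟩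
    · intro h1
      rw [hmem'] at h1
      have hsub : closure ((sSup c : Submodule ℂ C) : Set C) ⊆ {x | 1 ≤ ‖1 - x‖} := by
        refine closure_minimal ?_ ?_
        · intro z hz
          obtain ⟨J, hJ, hzJ⟩ := (hmem z).1 hz
          exact (hc hJ).norm_ge hzJ
        · exact isClosed_le continuous_const (by fun_prop)
      have := hsub h1
      simp only [Set.mem_ofPred_eq, sub_self, norm_zero] at this
      exact absurd this (not_le.2 one_pos)
    · intro z hz
      exact (le_sSup hz).trans (Submodule.le_topologicalClosure _)) ⊥ hbot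
  exact ⟨m, hm.1, fun J' hJ' hle => hm.2 hJ' hle⟩

/-- the states which vanish on `J` -/
def stJ (J : Submodule ℂ C) : Set (C → ℂ) :=
  H770R2.Kad.pureS (0 : C) 0 ∩ {f | ∀ x ∈ J, f x = 0}

lemma stJ_compact (J : Submodule ℂ C) : IsCompact (stJ J) := by
  refine (H770R2.Kad.pure_compact (0 : C) 0).inter_right ?_
  have : {f : C → ℂ | ∀ x ∈ J, f x = 0} = ⋂ x ∈ J, {f : C → ℂ | f x = 0} := by
    ext f
    simp
  rw [this]
  exact isClosed_biInter fun x _ => isClosed_eq (continuous_apply x) continuous_const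

lemma mem_stJ {J : Submodule ℂ C} {f : C → ℂ} (h1 : H770R2.Kad.PurePF f) (h2 : f 1 = 1)
    (h3 : ∀ x ∈ J, f x = 0) : f ∈ stJ J := by
  refine ⟨⟨h1, h2, fun a => h1.norm_le h2 a, ?_⟩, h3⟩
  have h4 : f 0 = 0 := by
    have := h1.smul 0 0
    rwa [zero_smul, zero_mul] at this
  rw [mul_zero, h4, Complex.zero_re]

lemma stJ_nonempty [Nontrivial C] {J : Submodule ℂ C} (hJ : Idl J) : (stJ J).Nonempty := by
  have : IsClosed (J : Set C) := hJ.closed
  have hn1 : ‖(Submodule.Quotient.mk (1 : C) : C ⧸ J)‖ = 1 := by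
    apply le_antisymm
    · refine (Submodule.Quotient.norm_mk_le J (1 : C)).trans ?_
      rw [CStarRing.norm_one]
    · refine le_of_forall_pos_lt_add fun ε hε => ?_
      obtain ⟨m, hm, hlt⟩ := Submodule.Quotient.norm_mk_lt
        (Submodule.Quotient.mk (1 : C) : C ⧸ J) hε
      have h1 : 1 - m ∈ J := by
        rw [← Submodule.Quotient.eq]
        exact hm.symm
      have h2 := hJ.norm_ge h1
      rw [sub_sub_cancel] at h2
      linarith
  obtain ⟨g, hg, hg1⟩ := exists_dual_vector ℂ (Submodule.Quotient.mk (1 : C) : C ⧸ J)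
    (by rw [hn1]; exact one_ne_zero)
  rw [hn1] at hg1
  let q : C →L[ℂ] (C ⧸ J) := LinearMap.mkContinuous J.mkQ 1 (fun x => by
    rw [one_mul]
    exact Submodule.Quotient.norm_mk_le J x)
  let f : C →L[ℂ] ℂ := g.comp q
  have hqa : ∀ x, f x = g (Submodule.Quotient.mk x) := fun x => rfl
  have hf1 : f 1 = 1 := by
    rw [hqa, hg1]
    simp
  have hfn : ‖f‖ = 1 := by
    apply le_antisymm
    · refine ContinuousLinearMap.opNorm_le_bound _ zero_le_one fun x => ?_
      rw [hqa, one_mul]
      refine (g.le_opNorm _).trans ?_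
      rw [hg, one_mul]
      exact Submodule.Quotient.norm_mk_le J x
    · have := f.le_opNorm 1
      rwa [hf1, norm_one, CStarRing.norm_one, mul_one] at this
  have hpos := Pool.Agent.W658.Irrep.pos_of_norm f hfn hf1
  refine ⟨f, mem_stJ ⟨fun a b => map_add f a b, fun c a => by rw [map_smul, smul_eq_mul], ?_, ?_⟩
    hf1 ?_⟩
  · intro a
    exact (Complex.nonneg_iff.1 (hpos a)).1
  · intro a
    exact (Complex.nonneg_iff.1 (hpos a)).2.symm
  · intro x hx
    rw [hqa, (Submodule.Quotient.mk_eq_zero J).2 hx, map_zero]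

end Run7.h875.CU
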