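import Pool.Agent.Run7.h875.CU.Idl

/-!
The representation of an extreme state which vanishes on a closed ideal is irreducible and
vanishes on the ideal.
-/

set_option autoImplicit false

open scoped InnerProductSpace ComplexOrder
open Filter Topology

namespace Run7.h875.CU

variable {C : Type} [CStarAlgebra C]

section vec

variable {K : Type} [NormedAddCommGroup K] [InnerProductSpace ℂ K] [CompleteSpace K]

/-- vector functionals -/
lemma purePF_vec (σ : C →⋆ₐ[ℂ] (K →L[ℂ] K)) (x : K) :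
    H770R2.Kad.PurePF (fun a => ⟪x, σ a x⟫_ℂ) := by
  have h1 : ∀ a : C, ⟪x, σ (star a * a) x⟫_ℂ = ((‖σ a x‖ ^ 2 : ℝ) : ℂ) := by
    intro a
    rw [map_mul, map_star, ContinuousLinearMap.star_eq_adjoint,
      show ((ContinuousLinearMap.adjoint (σ a)) * σ a) x =
        (ContinuousLinearMap.adjoint (σ a)) (σ a x) from rfl,
      ContinuousLinearMap.adjoint_inner_right, inner_self_eq_norm_sq_to_K]
    simp
  refine ⟨?_, ?_, ?_, ?_⟩
  · intro a b
    show ⟪x, σ (a + b) x⟫_ℂ = _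
    rw [map_add, ContinuousLinearMap.add_apply, inner_add_right]
  · intro c a
    show ⟪x, σ (c • a) x⟫_ℂ = _
    rw [map_smul, ContinuousLinearMap.smul_apply, inner_smul_right]
  · intro a
    show 0 ≤ (⟪x, σ (star a * a) x⟫_ℂ).re
    rw [h1, Complex.ofReal_re]
    positivity
  · intro a
    show (⟪x, σ (star a * a) x⟫_ℂ).im = 0
    rw [h1, Complex.ofReal_im]

lemma adj (σ : C →⋆ₐ[ℂ] (K →L[ℂ] K)) (a : C) (x y : K) :
    ⟪x, σ a y⟫_ℂ = ⟪σ (star a) x, y⟫_ℂ := by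
  rw [map_star, ContinuousLinearMap.star_eq_adjoint, ContinuousLinearMap.adjoint_inner_left]

end vec

/-- the main statement of this file -/
theorem irr_rep [Nontrivial C] {J : Submodule ℂ C} (hJ : Idl J) :
    ∃ (K : Type) (_ : NormedAddCommGroup K) (_ : InnerProductSpace ℂ K) (_ : CompleteSpace K)
      (σ : C →⋆ₐ[ℂ] (K →L[ℂ] K)) (Ω : K), ‖Ω‖ = 1 ∧ (∀ x ∈ J, σ x = 0) ∧
      ∀ U : Submodule ℂ K, IsClosed (U : Set K) → (∀ b, ∀ x ∈ U, σ b x ∈ U) → U = ⊥ ∨ U = ⊤ := by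
  obtain ⟨φ, hφ⟩ := (stJ_compact J).extremePoints_nonempty (stJ_nonempty hJ)
  obtain ⟨⟨⟨hP, h1, hn, -⟩, hv⟩, hext⟩ := mem_extremePoints.mp hφ
  obtain ⟨K, _, _, _, σ, Ω, hΩ, hσ, hd⟩ := H770R2.Kad.prove_gns C
    { toFun := φ, map_add' := hP.add, map_smul' := fun c a => hP.smul c a } h1 (by
      intro a
      show 0 ≤ φ (star a * a)
      rw [Complex.nonneg_iff]
      exact ⟨hP.re a, (hP.im a).symm⟩)
  have hσ' : ∀ a, ⟪Ω, σ a Ω⟫_ℂ = φ a := hσ
  have hkill : ∀ x ∈ J, σ x = 0 := by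
    intro x hx
    have hx0 : ∀ a, σ x (σ a Ω) = 0 := by
      intro a
      rw [← norm_eq_zero, ← sq_eq_zero_iff]
      have h2 : ((‖σ x (σ a Ω)‖ ^ 2 : ℝ) : ℂ) = φ (star (x * a) * (x * a)) := by
        rw [← hσ', map_mul, ContinuousLinearMap.mul_apply, adj, star_star, map_mul,
          ContinuousLinearMap.mul_apply, inner_self_eq_norm_sq_to_K]
        simp
      rw [hv _ (hJ.left _ _ (hJ.right _ _ hx))] at h2
      exact_mod_cast h2
    ext v
    have hcl : IsClosed {v | σ x v = 0} := isClosed_eq (σ x).continuous continuous_const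
    have h3 : closure (Set.range fun a => σ a Ω) ⊆ {v | σ x v = 0} := by
      refine closure_minimal ?_ hcl
      rintro _ ⟨a, rfl⟩
      exact hx0 a
    exact h3 (hd v)
  refine ⟨K, inferInstance, inferInstance, inferInstance, σ, Ω, hΩ, hkill, ?_⟩
  intro U hU hinv
  haveI : CompleteSpace U := hU.completeSpace_coe
  set ω : K := U.starProjection Ω with hω
  have hωU : ω ∈ U := Submodule.starProjection_apply_mem U Ω
  set ω' : K := Ω - ω with hω'
  have hω'U : ω' ∈ Uᗮ := Submodule.sub_starProjection_mem_orthogonal Ω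
  have hinv' : ∀ b, ∀ x ∈ Uᗮ, σ b x ∈ Uᗮ := by
    intro b x hx
    rw [Submodule.mem_orthogonal] at hx ⊢
    intro u hu
    rw [adj]
    exact hx _ (hinv _ _ hu)
  have hsum : Ω = ω + ω' := by rw [hω']; abel
  by_cases h0 : ω = 0
  · left
    have hΩU : Ω ∈ Uᗮ := by rwa [hsum, h0, zero_add]
    have h3 : closure (Set.range fun a => σ a Ω) ⊆ (Uᗮ : Set K) := by
      refine closure_minimal ?_ (Submodule.isClosed_orthogonal U)
      rintro _ ⟨a, rfl⟩
      exact hinv' a _ hΩU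
    rw [eq_bot_iff]
    intro v hv'
    have h4 : v ∈ Uᗮ := h3 (hd v)
    rw [Submodule.mem_orthogonal] at h4
    rw [Submodule.mem_bot, ← inner_self_eq_zero (𝕜 := ℂ)]
    exact h4 v hv'
  by_cases h0' : ω' = 0
  · right
    have hΩU : Ω ∈ U := by rwa [hsum, h0', add_zero]
    have h3 : closure (Set.range fun a => σ a Ω) ⊆ (U : Set K) := by
      refine closure_minimal ?_ hU
      rintro _ ⟨a, rfl⟩
      exact hinv a _ hΩU
    rw [eq_top_iff]
    intro v _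
    exact h3 (hd v)
  exfalso
  -- the two pieces
  have hor : ∀ x ∈ U, ∀ y ∈ Uᗮ, ⟪x, y⟫_ℂ = 0 := fun x hx y hy =>
    (Submodule.mem_orthogonal U y).1 hy x hx
  have hor' : ∀ x ∈ U, ∀ y ∈ Uᗮ, ⟪y, x⟫_ℂ = 0 := fun x hx y hy =>
    (Submodule.mem_orthogonal' U y).1 hy x hx
  have hsplit : ∀ a, φ a = ⟪ω, σ a ω⟫_ℂ + ⟪ω', σ a ω'⟫_ℂ := by
    intro a
    rw [← hσ', hsum, map_add, inner_add_left, inner_add_right, inner_add_right,
      hor _ hωU _ (hinv' a _ hω'U), hor' _ (hinv a _ hωU) _ hω'U]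
    ring
  set t : ℝ := ‖ω‖ ^ 2 with ht
  set s : ℝ := ‖ω'‖ ^ 2 with hs
  have ht0 : 0 < t := by
    have := norm_pos_iff.2 h0
    positivity
  have hs0 : 0 < s := by
    have := norm_pos_iff.2 h0'
    positivity
  have hω1 : ⟪ω, σ 1 ω⟫_ℂ = (t : ℂ) := by
    rw [map_one, ContinuousLinearMap.one_apply, inner_self_eq_norm_sq_to_K, ht]
    simp
  have hω1' : ⟪ω', σ 1 ω'⟫_ℂ = (s : ℂ) := by
    rw [map_one, ContinuousLinearMap.one_apply, inner_self_eq_norm_sq_to_K, hs]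
    simp
  have hts : t + s = 1 := by
    have := hsplit 1
    rw [h1, hω1, hω1'] at this
    exact_mod_cast this.symm
  have P1 := (purePF_vec σ ω).scale (r := t⁻¹) (inv_nonneg.2 ht0.le)
  have P2 := (purePF_vec σ ω').scale (r := s⁻¹) (inv_nonneg.2 hs0.le)
  have m1 : (fun a => ((t⁻¹ : ℝ) : ℂ) * ⟪ω, σ a ω⟫_ℂ) ∈ stJ J := by
    refine mem_stJ P1 ?_ ?_
    · show ((t⁻¹ : ℝ) : ℂ) * ⟪ω, σ 1 ω⟫_ℂ = 1
      rw [hω1, ← Complex.ofReal_mul, inv_mul_cancel₀ ht0.ne', Complex.ofReal_one]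
    · intro x hx
      show ((t⁻¹ : ℝ) : ℂ) * ⟪ω, σ x ω⟫_ℂ = 0
      rw [hkill x hx, ContinuousLinearMap.zero_apply, inner_zero_right, mul_zero]
  have m2 : (fun a => ((s⁻¹ : ℝ) : ℂ) * ⟪ω', σ a ω'⟫_ℂ) ∈ stJ J := by
    refine mem_stJ P2 ?_ ?_
    · show ((s⁻¹ : ℝ) : ℂ) * ⟪ω', σ 1 ω'⟫_ℂ = 1
      rw [hω1', ← Complex.ofReal_mul, inv_mul_cancel₀ hs0.ne', Complex.ofReal_one]
    · intro x hx
      show ((s⁻¹ : ℝ) : ℂ) * ⟪ω', σ x ω'⟫_ℂ = 0
      rw [hkill x hx, ContinuousLinearMap.zero_apply, inner_zero_right, mul_zero]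
  have hseg : φ ∈ openSegment ℝ (fun a => ((t⁻¹ : ℝ) : ℂ) * ⟪ω, σ a ω⟫_ℂ)
      (fun a => ((s⁻¹ : ℝ) : ℂ) * ⟪ω', σ a ω'⟫_ℂ) := by
    refine ⟨t, s, ht0, hs0, hts, ?_⟩
    funext a
    simp only [Pi.add_apply, Pi.smul_apply, Complex.real_smul]
    rw [← mul_assoc, ← mul_assoc, ← Complex.ofReal_mul, ← Complex.ofReal_mul,
      mul_inv_cancel₀ ht0.ne', mul_inv_cancel₀ hs0.ne', Complex.ofReal_one, one_mul, one_mul,
      hsplit]
  have h6 := (hext _ m1 _ m2 hseg).1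
  have h7 : ∀ a, ⟪ω - (t : ℂ) • Ω, σ a Ω⟫_ℂ = 0 := by
    intro a
    have h8 := congrFun h6 a
    have h9 : ⟪ω, σ a Ω⟫_ℂ = ⟪ω, σ a ω⟫_ℂ := by
      conv_lhs => rw [hsum, map_add, inner_add_right, hor _ hωU _ (hinv' a _ hω'U), add_zero]
    rw [inner_sub_left, inner_smul_left, Complex.conj_ofReal, hσ', h9, ← h8, ← mul_assoc,
      ← Complex.ofReal_mul, mul_inv_cancel₀ ht0.ne', Complex.ofReal_one, one_mul, sub_self]
  have h8 : ω - (t : ℂ) • Ω = 0 := by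
    have hcl : IsClosed {v | ⟪ω - (t : ℂ) • Ω, v⟫_ℂ = 0} :=
      isClosed_eq (by fun_prop) continuous_const
    have h3 : closure (Set.range fun a => σ a Ω) ⊆ {v | ⟪ω - (t : ℂ) • Ω, v⟫_ℂ = 0} := by
      refine closure_minimal ?_ hcl
      rintro _ ⟨a, rfl⟩
      exact h7 a
    have := h3 (hd (ω - (t : ℂ) • Ω))
    exact inner_self_eq_zero.1 this
  have h9 : ⟪ω', ω - (t : ℂ) • Ω⟫_ℂ = -((t * s : ℝ) : ℂ) := by
    rw [inner_sub_right, inner_smul_right, hsum, inner_add_right, hor' _ hωU _ hω'U, zero_add,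
      inner_self_eq_norm_sq_to_K, zero_sub]
    simp [hs]
  rw [h8, inner_zero_right] at h9
  have h10 : t * s = 0 := by
    have := neg_eq_zero.1 h9.symm
    exact_mod_cast this
  exact (mul_pos ht0 hs0).ne' h10

end Run7.h875.CU
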