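import Pool.Agent.Run7.h875.CU.Irr

/-!
A unital C*-algebra with a dense *-subalgebra of type I (a homomorphic image is enough) contains
no two almost isometries with almost orthogonal ranges.
-/

set_option autoImplicit false

open scoped InnerProductSpace ComplexOrder
open Filter Topology
open Pool.Agent.W658

namespace Run7.h875.CU

variable {C : Type} [CStarAlgebra C]

/-- no almost isometries with almost orthogonal ranges on a finite-dimensional space -/
lemma no_findim {K : Type} [NormedAddCommGroup K] [InnerProductSpace ℂ K] [CompleteSpace K]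
    [FiniteDimensional ℂ K] [Nontrivial K] (a₀ a₁ : K →L[ℂ] K)
    (h0 : ‖star a₀ * a₀ - 1‖ ≤ 1 / 4) (h1 : ‖star a₁ * a₁ - 1‖ ≤ 1 / 4)
    (h01 : ‖star a₁ * a₀‖ ≤ 1 / 4) : False := by
  have key : ∀ (a : K →L[ℂ] K), ‖star a * a - 1‖ ≤ 1 / 4 → ∀ v,
      3 / 4 * ‖v‖ ^ 2 ≤ ‖a v‖ ^ 2 ∧ ‖a v‖ ^ 2 ≤ 5 / 4 * ‖v‖ ^ 2 := by
    intro a ha v
    have e1 : (⟪v, (star a * a - 1) v⟫_ℂ) = ((‖a v‖ ^ 2 - ‖v‖ ^ 2 : ℝ) : ℂ) := by
      have e2 : (star a * a - 1) v = star a (a v) - v := rfl
      rw [e2, inner_sub_right, ContinuousLinearMap.star_eq_adjoint,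
        ContinuousLinearMap.adjoint_inner_right, inner_self_eq_norm_sq_to_K,
        inner_self_eq_norm_sq_to_K]
      simp
    have e3 : ‖⟪v, (star a * a - 1) v⟫_ℂ‖ ≤ 1 / 4 * ‖v‖ ^ 2 := by
      refine (norm_inner_le_norm _ _).trans ?_
      have := (star a * a - 1).le_opNorm v
      have hv := norm_nonneg v
      nlinarith [mul_le_mul_of_nonneg_right ha hv]
    rw [e1, Complex.norm_real, Real.norm_eq_abs] at e3
    have := abs_le.1 e3
    constructor <;> linarith
  have hinj : Function.Injective a₀ := by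
    rw [injective_iff_map_eq_zero]
    intro v hv
    have := (key a₀ h0 v).1
    rw [hv, norm_zero] at this
    have h2 : ‖v‖ ^ 2 ≤ 0 := by linarith
    exact norm_eq_zero.1 (pow_eq_zero_iff two_ne_zero |>.1 (le_antisymm h2 (sq_nonneg _)))
  have hsurj : Function.Surjective a₀ := by
    have h2 : Function.Injective (a₀ : K →ₗ[ℂ] K) := hinj
    exact LinearMap.surjective_of_injective h2
  obtain ⟨v, hv⟩ := exists_ne (0 : K)
  obtain ⟨u, hu⟩ := hsurj (a₁ v)
  have hvp : 0 < ‖v‖ ^ 2 := by
    have := norm_pos_iff.2 hv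
    positivity
  have e1 : 3 / 4 * ‖v‖ ≤ ‖star a₁ (a₁ v)‖ := by
    have e2 : star a₁ (a₁ v) = v + (star a₁ * a₁ - 1) v := by
      show star a₁ (a₁ v) = v + (star a₁ (a₁ v) - v)
      abel
    have e3 := (star a₁ * a₁ - 1).le_opNorm v
    have e4 : ‖v‖ - ‖(star a₁ * a₁ - 1) v‖ ≤ ‖v + (star a₁ * a₁ - 1) v‖ := by
      have := norm_sub_le (v + (star a₁ * a₁ - 1) v) ((star a₁ * a₁ - 1) v)
      rw [add_sub_cancel_right] at this
      linarith
    rw [e2]
    have hv := norm_nonneg v
    nlinarith [mul_le_mul_of_nonneg_right h1 hv]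
  have e2 : ‖star a₁ (a₁ v)‖ ≤ 1 / 4 * ‖u‖ := by
    rw [← hu]
    refine ((star a₁ * a₀).le_opNorm u).trans ?_
    exact mul_le_mul_of_nonneg_right h01 (norm_nonneg _)
  have e3 := (key a₀ h0 u).1
  have e4 := (key a₁ h1 v).2
  rw [hu] at e3
  have e5 : (3 / 4 * ‖v‖) ^ 2 ≤ (1 / 4 * ‖u‖) ^ 2 :=
    pow_le_pow_left₀ (by positivity) (e1.trans e2) 2
  nlinarith

theorem no_typeI [Nontrivial C] {B : Type} [NonUnitalRing B] [StarRing B] [Module ℂ B]
    (hB : TypeI.IsTypeI B) (ι : B →⋆ₙₐ[ℂ] C) (hι : DenseRange ι) (x₀ x₁ : C)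
    (h0 : ‖star x₀ * x₀ - 1‖ ≤ 1 / 4) (h1 : ‖star x₁ * x₁ - 1‖ ≤ 1 / 4)
    (h01 : ‖star x₁ * x₀‖ ≤ 1 / 4) : False := by
  obtain ⟨J, hJ, hmax⟩ := exists_maximal (C := C)
  obtain ⟨K, _, _, _, σ, Ω, hΩ, hkill, hirr⟩ := irr_rep hJ
  have hΩ0 : Ω ≠ 0 := by
    rintro rfl
    rw [norm_zero] at hΩ
    exact zero_ne_one hΩ
  have hnt : Nontrivial K := ⟨⟨Ω, 0, hΩ0⟩⟩
  have hcont : Continuous σ := by
    refine AddMonoidHomClass.continuous_of_bound σ 1 fun x => ?_
    rw [one_mul]
    exact NonUnitalStarAlgHom.norm_apply_le σ x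
  let π : B →⋆ₙₐ[ℂ] (K →L[ℂ] K) :=
    { toFun := fun b => σ (ι b)
      map_smul' := fun c b => by simp
      map_zero' := by simp
      map_add' := fun b c => by simp
      map_mul' := fun b c => by simp
      map_star' := fun b => by simp [map_star] }
  have hπ : ∀ b, π b = σ (ι b) := fun b => rfl
  have hirr' : TypeI.IsIrreducible π := by
    constructor
    · intro h
      have h2 : closure (Set.range ι) ⊆ {c | σ c = 0} := by
        refine closure_minimal ?_ (isClosed_eq hcont continuous_const)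
        rintro _ ⟨b, rfl⟩
        show σ (ι b) = 0
        rw [← hπ, h]
        rfl
      have h3 : σ 1 = 0 := h2 (hι 1)
      rw [map_one] at h3
      exact one_ne_zero h3
    · intro U hU hinv
      refine hirr U hU fun c x hx => ?_
      have h2 : closure (Set.range ι) ⊆ {c | σ c x ∈ (U : Set K)} := by
        refine closure_minimal ?_ ?_
        · rintro _ ⟨b, rfl⟩
          exact hinv b x hx
        · refine hU.preimage ?_
          have h5 : Continuous fun T : K →L[ℂ] K => T x :=
            (ContinuousLinearMap.apply ℂ K x).continuous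
          exact h5.comp hcont
      exact h2 (hι c)
  have hcomp := hB K π hirr'
  -- the ideal of the elements with compact image
  let J' : Submodule ℂ C :=
    { carrier := {c | IsCompactOperator (σ c)}
      add_mem' := by
        intro a b ha hb
        show IsCompactOperator (σ (a + b))
        rw [map_add]
        exact IsCompactOperator.add ha hb
      zero_mem' := by
        show IsCompactOperator (σ 0)
        rw [map_zero]
        exact isCompactOperator_zero
      smul_mem' := by
        intro c a ha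
        show IsCompactOperator (σ (c • a))
        rw [map_smul]
        exact IsCompactOperator.smul ha c }
  have hJ'mem : ∀ c, c ∈ J' ↔ IsCompactOperator (σ c) := fun c => Iff.rfl
  by_cases hone : (1 : C) ∈ J'
  · -- the space is finite-dimensional
    rw [hJ'mem, map_one] at hone
    have hlc : LocallyCompactSpace K :=
      isCompactOperator_id_iff_locallyCompactSpace.1 hone
    have hfd : FiniteDimensional ℂ K := FiniteDimensional.of_locallyCompactSpace ℂ
    have hle : ∀ c, ‖σ c‖ ≤ ‖c‖ := fun c => NonUnitalStarAlgHom.norm_apply_le σ c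
    refine no_findim (σ x₀) (σ x₁) ?_ ?_ ?_
    · rw [← map_star, ← map_mul, ← map_one σ, ← map_sub]
      exact (hle _).trans h0
    · rw [← map_star, ← map_mul, ← map_one σ, ← map_sub]
      exact (hle _).trans h1
    · rw [← map_star, ← map_mul]
      exact (hle _).trans h01
  · have hJ'i : Idl J' := by
      refine ⟨?_, ?_, ?_, hone⟩
      · exact IsClosed.preimage hcont isClosed_setOfPred_isCompactOperator
      · intro a x hx
        rw [hJ'mem] at hx ⊢
        rw [map_mul]
        exact IsCompactOperator.clm_comp hx (σ a)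
      · intro a x hx
        rw [hJ'mem] at hx ⊢
        rw [map_mul]
        exact IsCompactOperator.comp_clm hx (σ a)
    have hle : J ≤ J' := by
      intro x hx
      rw [hJ'mem, hkill x hx]
      exact isCompactOperator_zero
    have hle' := hmax J' hJ'i hle
    -- a rank one operator
    let T : K →L[ℂ] K := (innerSL ℂ Ω).smulRight Ω
    have hT : IsCompactOperator T := by
      have h2 : IsCompactOperator (ContinuousLinearMap.toSpanSingleton ℂ Ω) :=
        isCompactOperator_of_locallyCompactSpace_rng _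
      have h3 := h2.comp_clm (innerSL ℂ Ω)
      exact h3
    obtain ⟨b, hb⟩ := hcomp T hT
    have h4 : ι b ∈ J' := by
      rw [hJ'mem, ← hπ, hb]
      exact hT
    have h5 := hkill _ (hle' h4)
    rw [← hπ, hb] at h5
    have h6 : T Ω = 0 := by rw [h5]; rfl
    have h7 : T Ω = Ω := by
      show (⟪Ω, Ω⟫_ℂ) • Ω = Ω
      rw [inner_self_eq_norm_sq_to_K, hΩ]
      simp
    exact hΩ0 (h7.symm.trans h6)

end Run7.h875.CU
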